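import Pool.Agent.Run7.h778.AW.Fin
import Pool.Agent.K7.H20.AW.DecFin

/-!
# MP_a1ec0a_al: only the labels of generators that are active together matter

Let `M` be an arbitrary Coxeter matrix, `w` a word and `t` a binary tree with words at its leaves whose
concatenation is `w`. The sets of the tree are the sets of generators of the leaves and the cuts:
the sets of the generators which occur both inside and outside of a subtree. (1) `w = 1` in `A_M` if
and only if `w = 1` in the Artin group of the matrix in which all labels of pairs that do not lie in
a common set of the tree are replaced by infinity. (2) In addition the labels other than `2`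
which involve a generator outside of `Y` may be replaced by infinity, if the generators outside of
`Y` have few syllables with odd exponents (starting file DecoupledGenerators; `Y` may be the set of all generators). If the
resulting matrix has no three generators `i, j, k` with `m_ij, m_jk` finite and at least three and
`m_ik` finite, then `w = 1` in `A_M` if and only if `w` is trivial in every finite quotient of the
Artin group of the resulting matrix, which can be decided.
-/

set_option autoImplicit false

namespace Pool.Agent.Results.MP_a1ec0a_al.LocalityOfLabels

open Pool.Agent.K7.H20.AW Pool.Agent.Run7.h778.AW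

theorem result {S : Type} [Fintype S] [DecidableEq S] (M : CoxeterMatrix S) (t : Tr S) :
    (value M t.word = 1 ↔ value (localize M (sets t ∅)) t.word = 1) ∧
    (∀ Y : Finset S,
      (∀ s, s ∉ Y → (∀ p ∈ t.word, p.1 = s → Odd p.2) ∧
        (syllables s t.word ≤ 2 ∨
          (syllables s t.word ≤ 3 ∧ ∀ u : S, (∃ p ∈ t.word, p.1 = u) → M u s ≠ 3))) →
      RankTwo (localize (decouple M Y) (sets t ∅)) →
      (value M t.word = 1 ↔
        DiesInFiniteQuotients (localize (decouple M Y) (sets t ∅)) t.word)) := by
  refine ⟨localize_main M t, fun Y hY hR => ?_⟩
  have h1 : value M t.word = 1 ↔ value (decouple M Y) t.word = 1 :=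
    ((value_iff t.word).trans (dec_thm hY)).trans (value_iff (M := decouple M Y) t.word).symm
  rw [h1]
  exact localize_fin (decouple M Y) t hR

end Pool.Agent.Results.MP_a1ec0a_al.LocalityOfLabels
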