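import Pool.Agent.Run7.h478.UG.Prim

/-!
# The word problem of all Artin groups and two-generator groups

Let `ell 1, ell 2, …` be a sequence of labels (numbers `≥ 2` or infinity, written `0`) in which every
finite sequence of labels occurs as a block. The group
`U = ⟨s, t | Π(s, t ^ d s t ^ (-d); ell d) = Π(t ^ d s t ^ (-d), s; ell d), d ≥ 1⟩`
contains every Artin group with countably many generators, the standard generators being sent to
conjugates `t ^ a s t ^ (-a)`. When the sequence is computable, the uniform word problem of all Artin
groups is many-one equivalent to the word problem of `U`. The same holds for the Artin groups with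
labels in any prescribed recursively enumerable set.
-/

set_option autoImplicit false

namespace Pool.Agent.Results.MP_a1ec0a_al.UniversalTwoGenerators

open Pool.Agent.K7.H20.AW Pool.Agent.Run7.H478.UG

theorem result :
    (∀ (n : ℕ) (M : CoxeterMatrix (Fin n)), ∃ L : List ℕ, matrixOf label (n, L) = M) ∧
    Primrec label ∧ Primrec kappa ∧
    ManyOneEquiv (UniformWordProblem label) (WordProblemU fun d => label (kappa d)) ∧
    (ComputablePred (UniformWordProblem label) ↔
      ComputablePred (WordProblemU fun d => label (kappa d))) ∧
    ∀ lam : ℕ → ℕ, (∀ v, lam v ≠ 1) →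
      Rich lam (fun d => lam (kappa d)) ∧
      ∀ ell : ℕ → ℕ, Rich lam ell →
        (∀ (S : Type) [Countable S] (M : CoxeterMatrix S),
          (∀ i j, i ≠ j → ∃ v, lam v = M i j) →
            ∃ (a : S → ℕ) (f : ArtinGroup M →* U ell), Function.Injective f ∧
              ∀ i, f (PresentedGroup.of i) =
                PresentedGroup.of true ^ a i * PresentedGroup.of false *
                  (PresentedGroup.of true ^ a i)⁻¹) ∧
        (Computable lam → Computable ell →
          ManyOneEquiv (UniformWordProblem lam) (WordProblemU ell)) := by
  have h1 : ManyOneEquiv (UniformWordProblem label) (WordProblemU fun d => label (kappa d)) :=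
    many_one prim_label.to_comp (prim_label.comp prim_kappa).to_comp label_ne_one
      (rich_kappa label)
  refine ⟨exists_code, prim_label, prim_kappa, h1,
    ⟨fun h => ComputablePred.computable_of_manyOneReducible h1.2 h,
      fun h => ComputablePred.computable_of_manyOneReducible h1.1 h⟩,
    fun lam hlam => ⟨rich_kappa lam, fun ell hr => ⟨?_, fun hl he => many_one hl he hlam hr⟩⟩⟩
  intro S _ M hM
  obtain ⟨a, ha, h⟩ := exists_pos_matrix hr M hM
  exact ⟨a, emb M a ha h, emb_injective M a ha h (fun d hd => hr.ne_one hlam hd),
    fun i => emb_of M a ha h i⟩

end Pool.Agent.Results.MP_a1ec0a_al.UniversalTwoGenerators
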