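import Pool.Agent.Run7.h778.AW.Fin

/-!
# MP_a1ec0a_al: the word problem for words of bounded width

Let `M` be an arbitrary Coxeter matrix, `w` a word and `t` a binary tree with words at its leaves whose
concatenation is `w`. The sets of the tree are the sets of generators of the leaves and the cuts:
the sets of the generators which occur both inside and outside of a subtree. The explicit procedure
`alg` decides whether `w = 1` in the Artin group `A_M` with the help of an oracle for the word
problem in the groups `A_D`, where `D` runs through the sets of the tree. No oracle is needed if the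
matrices restricted to the sets `D` are of rank two type, for instance if all sets have at most
two elements: then triviality in `A_D` is triviality in all finite quotients of the finitely
presented group `A_D`, which can be decided. In particular this solves the word problem
for all words with at most six syllables in all Artin groups, and for words with at most `3 k` syllables
Artin groups with at most `k` generators are sufficient.
-/

set_option autoImplicit false

namespace Pool.Agent.Results.MP_a1ec0a_al.WordsOfBoundedWidth

open Pool.Agent.K7.H20.AW Pool.Agent.Run7.h778.AW

theorem result {S : Type} [Fintype S] [DecidableEq S] (M : CoxeterMatrix S) (L : List S)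
    (hL : ∀ s, s ∈ L) :
    (∀ (t : Tr S) (O : Finset S → List (S × ℤ) → Bool), Solves M O (sets t ∅) →
      (value M t.word = 1 ↔ [] ∈ alg L O t ∅)) ∧
    (∀ (t : Tr S) (O : Finset S → List (S × ℤ) → Bool),
      (∀ D ∈ sets t ∅, RankTwo (restrict M D)) →
      (∀ D ∈ sets t ∅, ∀ w : List (D × ℤ), O D (up w) = true ↔
        DiesInFiniteQuotients (restrict M D) w) →
      (value M t.word = 1 ↔ [] ∈ alg L O t ∅)) ∧
    (∀ (k : ℕ) (w : List (S × ℤ)), w.length ≤ 3 * k →
      ∃ t : Tr S, t.word = w ∧ ∀ D ∈ sets t ∅, D.card ≤ k ∧ (k ≤ 2 → RankTwo (restrict M D))) := by
  refine ⟨fun t O hO => main M hL t O hO, fun t O hR hO => main_fin M hL t hR O hO,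
    fun k w hw => ?_⟩
  obtain ⟨t, ht, h⟩ := short k w hw
  exact ⟨t, ht, fun D hD => ⟨h D hD, fun hk => rankTwo_of_card M ((h D hD).trans hk)⟩⟩

end Pool.Agent.Results.MP_a1ec0a_al.WordsOfBoundedWidth
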